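import Mathlib

/-!
# A coloured cycle with a binomial linear relation which is not induced by symmetries

The `6`-cycle `0 - 1 - 2 - 3 - 4 - 5 - 0` with all vertices of one colour, the edges `01, 12, 34` of
a first colour and the edges `23, 45, 50` of a second colour has no symmetry, but
`x₁₅ - x₂₄` vanishes on the inverses of all invertible matrices of its linear space.
-/

set_option autoImplicit false

open MvPolynomial

namespace Pool.Agent.Results.MP_c04d7c_ag.AsymmetricBinomial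

/-- A coloured graph on the vertex set `Fin m`: a simple graph, a colouring of the vertices and a
colouring of the edges (only the colours of the edges of the graph matter). -/
structure ColouredGraph (m : ℕ) where
  /-- the underlying graph -/
  graph : SimpleGraph (Fin m)
  /-- the vertex colours -/
  vcol : Fin m → ℕ
  /-- the edge colours -/
  ecol : Sym2 (Fin m) → ℕ

namespace ColouredGraph

variable {m : ℕ} (G : ColouredGraph m)

/-- The linear space `𝓛_G` of symmetric matrices. -/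
def linearSpace : Set (Matrix (Fin m) (Fin m) ℝ) :=
  {K | (∀ i j, K i j = K j i) ∧ (∀ i j, i ≠ j → ¬ G.graph.Adj i j → K i j = 0) ∧
    (∀ i j, G.vcol i = G.vcol j → K i i = K j j) ∧
    (∀ i j k l, G.graph.Adj i j → G.graph.Adj k l → G.ecol s(i, j) = G.ecol s(k, l) →
      K i j = K k l)}

/-- The set `𝓛_G⁻¹` of the inverses of the invertible matrices in `𝓛_G`. -/
def reciprocal : Set (Matrix (Fin m) (Fin m) ℝ) :=
  {S | ∃ K ∈ G.linearSpace, IsUnit K ∧ S = K⁻¹}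

/-- A symmetry of `G`: a graph automorphism which preserves the colour of every vertex and of every
edge. -/
def IsSymmetry (σ : Equiv.Perm (Fin m)) : Prop :=
  (∀ i j, G.graph.Adj (σ i) (σ j) ↔ G.graph.Adj i j) ∧ (∀ i, G.vcol (σ i) = G.vcol i) ∧
    ∀ i j, G.graph.Adj i j → G.ecol s(σ i, σ j) = G.ecol s(i, j)

end ColouredGraph

/-- The index set of the variables `x_ij`, `i ≤ j`. -/
abbrev Var (m : ℕ) : Type := {p : Fin m × Fin m // p.1 ≤ p.2}

/-- The index of the variable `x_ij = x_ji`. -/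
def var {m : ℕ} (i j : Fin m) : Var m := ⟨(min i j, max i j), min_le_max⟩

/-- The coordinates of a symmetric matrix. -/
def coords {m : ℕ} (S : Matrix (Fin m) (Fin m) ℝ) : Var m → ℝ := fun p => S p.1.1 p.1.2

/-- The vanishing ideal `I(𝓛_G⁻¹)`. -/
noncomputable def ColouredGraph.ideal {m : ℕ} (G : ColouredGraph m) :
    Ideal (MvPolynomial (Var m) ℝ) :=
  vanishingIdeal ℝ (coords '' G.reciprocal)

/-- The linear form with the coefficients `c`. -/
noncomputable def linForm {m : ℕ} (c : Var m → ℝ) : MvPolynomial (Var m) ℝ :=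
  ∑ p, C (c p) * X p

/-- The linear forms induced by the symmetries of `G`. -/
noncomputable def ColouredGraph.induced {m : ℕ} (G : ColouredGraph m) :
    Submodule ℝ (MvPolynomial (Var m) ℝ) :=
  Submodule.span ℝ {f | ∃ σ, G.IsSymmetry σ ∧ ∃ i j, f = X (var i j) - X (var (σ i) (σ j))}

/-- the coloured `6`-cycle -/
abbrev G : ColouredGraph 6 where
  graph := SimpleGraph.cycleGraph 6
  vcol _ := 0
  ecol e := if e = s(0, 1) ∨ e = s(1, 2) ∨ e = s(3, 4) then 0 else 1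

/-- `ab` is an edge of colour `k` -/
def ed (a b : Fin 6) (k : ℕ) : Bool :=
  decide ((SimpleGraph.cycleGraph 6).Adj a b) && decide (G.ecol s(a, b) = k)

theorem ed_of {a b : Fin 6} {k : ℕ} (h1 : (SimpleGraph.cycleGraph 6).Adj a b)
    (h2 : G.ecol s(a, b) = k) : ed a b k = true := by
  rw [ed, decide_eq_true h1, decide_eq_true h2]
  rfl

theorem key1 : ∀ a b : Fin 6, ed a b 0 = true → ∀ c, ed b c 0 = true → a ≠ c →
    ∀ d, ed c d 1 = true → d = 5 ∨ (a = 0 ∧ b = 1 ∧ c = 2 ∧ d = 3) := by decide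

theorem key2 : ∀ f : Fin 6, ed 4 f 1 = true → f = 5 := by decide

theorem key3 : ∀ e : Fin 6, ed 5 e 0 = false := by decide

theorem key4 : ∀ e : Fin 6, ed 3 e 0 = true → e = 4 := by decide

theorem sym_id (σ : Equiv.Perm (Fin 6)) (h : G.IsSymmetry σ) : ∀ i, σ i = i := by
  obtain ⟨h1, _, h3⟩ := h
  have adj : ∀ i j, (SimpleGraph.cycleGraph 6).Adj i j →
      (SimpleGraph.cycleGraph 6).Adj (σ i) (σ j) ∧ G.ecol s(σ i, σ j) = G.ecol s(i, j) :=
    fun i j hij => ⟨(h1 i j).2 hij, h3 i j hij⟩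
  have a01 := adj 0 1 (by decide)
  have a12 := adj 1 2 (by decide)
  have a23 := adj 2 3 (by decide)
  have a34 := adj 3 4 (by decide)
  have a45 := adj 4 5 (by decide)
  have ne : σ 0 ≠ σ 2 := fun h => absurd (σ.injective h) (by decide)
  have e34 := ed_of a34.1 (a34.2.trans (by decide : G.ecol s(3, 4) = 0))
  rcases key1 (σ 0) (σ 1) (ed_of a01.1 (a01.2.trans (by decide))) (σ 2)
    (ed_of a12.1 (a12.2.trans (by decide))) ne (σ 3)
    (ed_of a23.1 (a23.2.trans (by decide))) with hd | ⟨e0, e1, e2, e3⟩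
  · rw [hd, key3] at e34
    exact absurd e34 (by decide)
  rw [e3] at e34
  have e4 := key4 (σ 4) e34
  rw [e4] at a45
  have e5 := key2 (σ 5) (ed_of a45.1 (a45.2.trans (by decide)))
  intro i
  fin_cases i
  · exact e0
  · exact e1
  · exact e2
  · exact e3
  · exact e4
  · exact e5

theorem induced_eq : G.induced = ⊥ := by
  rw [ColouredGraph.induced, Submodule.span_eq_bot]
  rintro f ⟨σ, hσ, i, j, rfl⟩
  have h := sym_id σ hσ
  rw [h i, h j, sub_self]

/-- the matrices of the linear space -/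
def Kmat (κ a b : ℝ) : Matrix (Fin 6) (Fin 6) ℝ :=
  !![κ, a, 0, 0, 0, b;
     a, κ, a, 0, 0, 0;
     0, a, κ, b, 0, 0;
     0, 0, b, κ, a, 0;
     0, 0, 0, a, κ, b;
     b, 0, 0, 0, b, κ]

theorem mem_linearSpace (K : Matrix (Fin 6) (Fin 6) ℝ) (hK : K ∈ G.linearSpace) :
    K = Kmat (K 0 0) (K 0 1) (K 2 3) := by
  obtain ⟨hs, h0, hv, he⟩ := hK
  have z : ∀ i j : Fin 6, i ≠ j → ¬ (SimpleGraph.cycleGraph 6).Adj i j → K i j = 0 := h0
  have d : ∀ i : Fin 6, K i i = K 0 0 := fun i => hv i 0 rfl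
  have ea : ∀ i j : Fin 6, (SimpleGraph.cycleGraph 6).Adj i j → G.ecol s(i, j) = 0 →
      K i j = K 0 1 := fun i j h1 h2 => he i j 0 1 h1 (by decide) (h2.trans (by decide))
  have eb : ∀ i j : Fin 6, (SimpleGraph.cycleGraph 6).Adj i j → G.ecol s(i, j) = 1 →
      K i j = K 2 3 := fun i j h1 h2 => he i j 2 3 h1 (by decide) (h2.trans (by decide))
  ext i j
  fin_cases i <;> fin_cases j <;>
    first
    | exact d _
    | exact z _ _ (by decide) (by decide)
    | exact ea _ _ (by decide) (by decide)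
    | exact eb _ _ (by decide) (by decide)

theorem det_Kmat (κ a b : ℝ) : (Kmat κ a b).det =
    κ ^ 6 - 3 * κ ^ 4 * a ^ 2 - 3 * κ ^ 4 * b ^ 2 + 2 * κ ^ 2 * a ^ 4 + 5 * κ ^ 2 * a ^ 2 * b ^ 2 +
      2 * κ ^ 2 * b ^ 4 - a ^ 4 * b ^ 2 - 2 * a ^ 3 * b ^ 3 - a ^ 2 * b ^ 4 := by
  simp [Kmat, Matrix.det_succ_row_zero, Fin.sum_univ_succ, Fin.succAbove]
  ring

theorem relation (κ a b : ℝ) (S : Matrix (Fin 6) (Fin 6) ℝ) (hS : Kmat κ a b * S = 1)
    (hdet : (Kmat κ a b).det ≠ 0) : S 1 5 = S 2 4 := by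
  rw [det_Kmat] at hdet
  have h : ∀ i j, ∑ k, Kmat κ a b i k * S k j = (1 : Matrix (Fin 6) (Fin 6) ℝ) i j := by
    intro i j
    rw [← hS, Matrix.mul_apply]
  have a0 := h 0 5
  have a1 := h 1 5
  have a2 := h 2 5
  have a3 := h 3 5
  have a4 := h 4 5
  have a5 := h 5 5
  have b0 := h 0 4
  have b1 := h 1 4
  have b2 := h 2 4
  have b3 := h 3 4
  have b4 := h 4 4
  have b5 := h 5 4
  simp only [Kmat, Fin.sum_univ_six, Matrix.of_apply, Matrix.cons_val, Matrix.one_apply] at a0 a1 a2 a3 a4 a5 b0 b1 b2 b3 b4 b5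
  rw [if_neg (by decide)] at a0 a1 a2 a3 a4 b0 b1 b2 b3 b5
  norm_num at a0 a1 a2 a3 a4 a5 b0 b1 b2 b3 b4 b5
  apply mul_left_cancel₀ hdet
  linear_combination (-κ ^ 4 * a + κ ^ 2 * a ^ 3 + 2 * κ ^ 2 * a * b ^ 2 - a ^ 2 * b ^ 3 -
      a * b ^ 4) * a0 +
    (κ ^ 5 - κ ^ 3 * a ^ 2 - 3 * κ ^ 3 * b ^ 2 + κ * a ^ 2 * b ^ 2 + 2 * κ * b ^ 4) * a1 +
    (-κ ^ 4 * a + κ ^ 2 * a ^ 3 + 2 * κ ^ 2 * a * b ^ 2 - a ^ 3 * b ^ 2 - a ^ 2 * b ^ 3) * a2 +
    (κ ^ 3 * a * b + κ * a ^ 2 * b ^ 2 - 2 * κ * a * b ^ 3) * a3 +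
    (-κ ^ 2 * a ^ 2 * b - κ ^ 2 * a * b ^ 2 + a ^ 2 * b ^ 3 + a * b ^ 4) * a4 +
    (κ ^ 3 * a * b - κ * a ^ 3 * b + κ * a ^ 2 * b ^ 2 - κ * a * b ^ 3) * a5 -
    (κ ^ 3 * a ^ 2 - κ * a ^ 4 - κ * a ^ 2 * b ^ 2 + κ * a * b ^ 3) * b0 -
    (-κ ^ 4 * a + κ ^ 2 * a ^ 3 + 2 * κ ^ 2 * a * b ^ 2 - a ^ 3 * b ^ 2 - a ^ 2 * b ^ 3) * b1 -
    (κ ^ 5 - 2 * κ ^ 3 * a ^ 2 - 2 * κ ^ 3 * b ^ 2 + κ * a ^ 4 + 2 * κ * a ^ 2 * b ^ 2) * b2 -
    (-κ ^ 4 * b + κ ^ 2 * a ^ 2 * b + 2 * κ ^ 2 * b ^ 3 - a ^ 3 * b ^ 2 - a ^ 2 * b ^ 3) * b3 -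
    (κ ^ 3 * a * b - κ * a ^ 3 * b + κ * a ^ 2 * b ^ 2 - κ * a * b ^ 3) * b4 -
    (-κ ^ 2 * a ^ 2 * b - κ ^ 2 * a * b ^ 2 + a ^ 4 * b + a ^ 3 * b ^ 2) * b5

/-- coefficients of the linear form `x₁₅ - x₂₄` -/
noncomputable def c : Var 6 → ℝ := fun p => if p = var 1 5 then 1 else if p = var 2 4 then -1 else 0

theorem c_two : {p | c p ≠ 0}.ncard = 2 := by
  have h : {p | c p ≠ 0} = {var 1 5, var 2 4} := by
    ext p
    simp only [Set.mem_ofPred_eq, Set.mem_insert_iff, Set.mem_singleton_iff, c]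
    by_cases h1 : p = var 1 5
    · simp [h1]
    · by_cases h2 : p = var 2 4
      · rw [if_neg h1, if_pos h2]
        simp [h2]
      · simp [h1, h2]
  rw [h, Set.ncard_pair (by decide)]

theorem linForm_c : linForm c = X (var 1 5) - X (var 2 4) := by
  classical
  have h : ∀ p : Var 6, (C (c p) * X p : MvPolynomial (Var 6) ℝ) =
      (if p = var 1 5 then X p else 0) - (if p = var 2 4 then X p else 0) := by
    intro p
    rw [c]
    by_cases h1 : p = var 1 5
    · subst h1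
      rw [if_pos rfl, if_pos rfl, if_neg (by decide)]
      simp
    · by_cases h2 : p = var 2 4
      · rw [if_neg h1, if_pos h2, if_neg h1, if_pos h2]
        simp
      · rw [if_neg h1, if_neg h2, if_neg h1, if_neg h2]
        simp
  rw [linForm, Finset.sum_congr rfl fun p _ => h p, Finset.sum_sub_distrib, Finset.sum_ite_eq',
    Finset.sum_ite_eq', if_pos (Finset.mem_univ _), if_pos (Finset.mem_univ _)]

theorem mem_ideal : linForm c ∈ G.ideal := by
  rw [ColouredGraph.ideal, mem_vanishingIdeal_iff]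
  rintro _ ⟨S, ⟨K, hK, hu, rfl⟩, rfl⟩
  rw [linForm_c, map_sub, aeval_X, aeval_X, sub_eq_zero]
  have hKm := mem_linearSpace K hK
  have hdet : IsUnit K.det := (Matrix.isUnit_iff_isUnit_det K).1 hu
  have hmul : K * K⁻¹ = 1 := Matrix.mul_nonsing_inv K hdet
  exact relation (K 0 0) (K 0 1) (K 2 3) K⁻¹ (by rw [← hKm]; exact hmul)
    (by rw [← hKm]; exact hdet.ne_zero)

theorem not_induced : linForm c ∉ G.induced := by
  rw [induced_eq, Submodule.mem_bot, linForm_c, sub_eq_zero]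
  intro h
  have := X_injective h
  revert this
  decide

/-- It is not true that every binomial linear form which vanishes on the inverses of the matrices of
a coloured cycle is induced by its symmetries. -/
theorem result : ¬ ∀ (n : ℕ), 3 ≤ n → ∀ G : ColouredGraph n,
    Nonempty (G.graph ≃g SimpleGraph.cycleGraph n) → ∀ c : Var n → ℝ, {p | c p ≠ 0}.ncard = 2 →
      linForm c ∈ G.ideal → linForm c ∈ G.induced :=
  fun h => not_induced (h 6 (by norm_num) G ⟨SimpleGraph.Iso.refl⟩ c c_two mem_ideal)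

end Pool.Agent.Results.MP_c04d7c_ag.AsymmetricBinomial
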